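import Pool.Agent.PVD.StmtsM1

set_option autoImplicit false

open MeasureTheory Filter Topology

namespace Pool.Agent.PVD.M.H69

open Pool.Agent.PVD.M

theorem sum_log (n : ℕ) : ∑ j ∈ Finset.range n, Real.log (nd n j) =
    Real.log (Nat.factorial n) - n * Real.log ((n : ℝ) + 1) := by
  have h1 : ∀ j ∈ Finset.range n, Real.log (nd n j) =
      Real.log ((j : ℝ) + 1) - Real.log ((n : ℝ) + 1) := by
    intro j _
    unfold nd
    rw [Real.log_div (by positivity) (by positivity)]
  rw [Finset.sum_congr rfl h1, Finset.sum_sub_distrib, Finset.sum_const, Finset.card_range,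
    nsmul_eq_mul]
  congr 1
  rw [← Finset.prod_range_add_one_eq_factorial n, Nat.cast_prod, Real.log_prod]
  · refine Finset.sum_congr rfl fun j _ => ?_
    push_cast
    rfl
  · intro j _
    have : (0:ℝ) < ((j + 1 : ℕ) : ℝ) := by positivity
    exact this.ne'

theorem rlg : RlgStmt := by
  unfold RlgStmt
  have e1 : ∀ᶠ n : ℕ in atTop, (n : ℝ)⁻¹ * ∑ j ∈ Finset.range n, Real.log (nd n j) =
      (n : ℝ)⁻¹ * Real.log (Stirling.stirlingSeq n) +
        Real.log (2 * (n : ℝ)) / (2 * (n : ℝ)) + (- Real.log (1 + 1 / (n : ℝ))) + (-1) := by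
    filter_upwards [eventually_gt_atTop 0] with n hn
    have hn' : (0:ℝ) < n := by exact_mod_cast hn
    have h2 := Stirling.log_stirlingSeq_formula n
    have h3 : Real.log ((n : ℝ) / Real.exp 1) = Real.log n - 1 := by
      rw [Real.log_div hn'.ne' (Real.exp_pos 1).ne', Real.log_exp]
    have h4 : Real.log (1 + 1 / (n : ℝ)) = Real.log ((n:ℝ) + 1) - Real.log n := by
      rw [← Real.log_div (by positivity) hn'.ne']
      congr 1
      field_simp
    rw [sum_log, h4]
    rw [h3] at h2
    have h5 : Real.log (Nat.factorial n) = Real.log (Stirling.stirlingSeq n) +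
        1 / 2 * Real.log (2 * n) + n * (Real.log n - 1) := by linarith
    rw [h5]
    field_simp
    ring
  refine Tendsto.congr' (f₁ := fun n : ℕ => (n : ℝ)⁻¹ * Real.log (Stirling.stirlingSeq n) +
        Real.log (2 * (n : ℝ)) / (2 * (n : ℝ)) + (- Real.log (1 + 1 / (n : ℝ))) + (-1))
    (e1.mono fun n h => h.symm) ?_
  have t1 : Tendsto (fun n : ℕ => (n : ℝ)⁻¹) atTop (𝓝 0) :=
    tendsto_inv_atTop_zero.comp tendsto_natCast_atTop_atTop
  have t2 : Tendsto (fun n : ℕ => Real.log (Stirling.stirlingSeq n)) atTop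
      (𝓝 (Real.log (Real.sqrt Real.pi))) :=
    (Real.continuousAt_log (by positivity)).tendsto.comp
      Stirling.tendsto_stirlingSeq_sqrt_pi
  have t3 : Tendsto (fun n : ℕ => (n : ℝ)⁻¹ * Real.log (Stirling.stirlingSeq n)) atTop (𝓝 0) := by
    have := t1.mul t2
    simpa using this
  have t4 : Tendsto (fun n : ℕ => Real.log (2 * (n : ℝ)) / (2 * (n : ℝ))) atTop (𝓝 0) := by
    have h := Real.isLittleO_log_id_atTop.tendsto_div_nhds_zero
    have h2 : Tendsto (fun n : ℕ => 2 * (n : ℝ)) atTop atTop :=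
      tendsto_natCast_atTop_atTop.const_mul_atTop (by norm_num)
    exact h.comp h2
  have t5 : Tendsto (fun n : ℕ => - Real.log (1 + 1 / (n : ℝ))) atTop (𝓝 0) := by
    have h : Tendsto (fun n : ℕ => 1 + 1 / (n : ℝ)) atTop (𝓝 (1 + 0)) := by
      refine tendsto_const_nhds.add ?_
      simpa [one_div] using t1
    have h2 := ((Real.continuousAt_log (x := 1 + 0) (by norm_num)).tendsto.comp h).neg
    simpa using h2
  have := ((t3.add t4).add t5).add (tendsto_const_nhds (x := (-1 : ℝ)))
  simpa using this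

end Pool.Agent.PVD.M.H69
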