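import Pool.Agent.PVD.StmtsM1

set_option autoImplicit false

open MeasureTheory Filter Topology

namespace Pool.Agent.PVD.M.H69

open Pool.Agent.PVD.M

theorem uba (hE : ExiStmt) : UbaStmt := by
  intro n A c h m r hr hm hf
  obtain ⟨hi, hv⟩ := hE n (fun j => r * fA A c m j) (fun j => mul_pos hr (hf j))
  have key : ∀ d ∈ Po A c h, ∑ j, r * fA A c m j * d j ≤ r * ∑ i ∈ A, m i * h i := by
    intro d hd
    have h1 : ∑ j, r * fA A c m j * d j = r * ∑ i ∈ A, m i * ∑ j, c i j * d j := by
      have : ∀ j, r * fA A c m j * d j = r * ∑ i ∈ A, m i * (c i j * d j) := by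
        intro j
        unfold fA
        rw [mul_assoc, Finset.sum_mul]
        congr 1
        refine Finset.sum_congr rfl fun i _ => ?_
        ring
      rw [Finset.sum_congr rfl fun j _ => this j, ← Finset.mul_sum, Finset.sum_comm]
      congr 1
      refine Finset.sum_congr rfl fun i _ => ?_
      rw [Finset.mul_sum]
    rw [h1]
    refine mul_le_mul_of_nonneg_left ?_ hr.le
    exact Finset.sum_le_sum fun i hi => mul_le_mul_of_nonneg_left (hd.2 i hi) (hm i hi)
  have hsub : Po A c h ⊆ Or n := fun d hd => hd.1
  have hmeas : MeasurableSet (Or n) := by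
    have : Or n = ⋂ j, {d : Fin n → ℝ | 0 ≤ d j} := by
      ext d
      simp [Or]
    rw [this]
    exact MeasurableSet.iInter fun j => measurableSet_le measurable_const (measurable_pi_apply j)
  set E : ℝ := Real.exp (r * ∑ i ∈ A, m i * h i) with hEdef
  have hpos : 0 ≤ᵐ[volume.restrict (Or n)]
      fun d : Fin n → ℝ => E * Real.exp (-∑ j, r * fA A c m j * d j) :=
    Filter.Eventually.of_forall fun d => by positivity
  have hint : IntegrableOn
      (fun d : Fin n → ℝ => E * Real.exp (-∑ j, r * fA A c m j * d j)) (Or n) :=
    hi.const_mul E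
  calc volume (Po A c h) = ∫⁻ _ in Po A c h, 1 := by simp
    _ ≤ ∫⁻ d in Po A c h, ENNReal.ofReal (E * Real.exp (-∑ j, r * fA A c m j * d j)) := by
        refine setLIntegral_mono' ?_ ?_
        · have : Po A c h = Or n ∩ ⋂ i ∈ A, {d : Fin n → ℝ | ∑ j, c i j * d j ≤ h i} := by
            ext d
            simp [Or, Po]
          rw [this]
          refine hmeas.inter ?_
          refine MeasurableSet.biInter A.countable_toSet fun i _ => ?_
          refine measurableSet_le ?_ measurable_const
          exact Finset.measurable_sum _ fun j _ => (measurable_pi_apply j).const_mul _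
        · intro d hd
          rw [← ENNReal.ofReal_one]
          refine ENNReal.ofReal_le_ofReal ?_
          rw [hEdef, ← Real.exp_add]
          refine Real.one_le_exp ?_
          have := key d hd
          linarith
    _ ≤ ∫⁻ d in Or n, ENNReal.ofReal (E * Real.exp (-∑ j, r * fA A c m j * d j)) :=
        lintegral_mono_set hsub
    _ = ENNReal.ofReal (∫ d in Or n, E * Real.exp (-∑ j, r * fA A c m j * d j)) :=
        (ofReal_integral_eq_lintegral_ofReal hint hpos).symm
    _ = ENNReal.ofReal (E * ∏ j, (r * fA A c m j)⁻¹) := by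
        rw [integral_const_mul, hv]

end Pool.Agent.PVD.M.H69
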